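import Mathlib

namespace Pool.Agent.Results.MP_9bed89_co.OrderOfGrowth

open Finset

/-- Every red/blue colouring of the edges of the complete graph on `N` vertices (red edges: `F`,
blue edges: `Fᶜ`) contains a copy of `G` all of whose edges have the same colour. -/
def Arrows {V : Type} (N : ℕ) (G : SimpleGraph V) : Prop :=
  ∀ F : SimpleGraph (Fin N), G.IsContained F ∨ G.IsContained Fᶜ

/-- The diagonal Ramsey number `r(G,G)`. -/
noncomputable def diagRamsey {V : Type} (G : SimpleGraph V) : ℕ :=
  sInf {N : ℕ | Arrows N G}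

/-- `R(n)`: the minimum of `r(G,G)` over all finite graphs `G` with exactly `n` edges. -/
noncomputable def minRamsey (n : ℕ) : ℕ :=
  sInf {r : ℕ | ∃ (p : ℕ) (G : SimpleGraph (Fin p)), G.edgeSet.ncard = n ∧ diagRamsey G = r}

/-! ### Ramsey's theorem for cliques -/

lemma ramsey_aux {V : Type} [DecidableEq V] (F : SimpleGraph V) :
    ∀ (m a b : ℕ), a + b = m → ∀ S : Finset V, 2 ^ m ≤ S.card →
      (∃ s ⊆ S, s.card = a ∧ F.IsClique (s : Set V)) ∨
      (∃ s ⊆ S, s.card = b ∧ Fᶜ.IsClique (s : Set V)) := by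
  classical
  intro m
  induction m with
  | zero =>
    intro a b hab S _
    have ha : a = 0 := by omega
    exact Or.inl ⟨∅, by simp, by simp [ha], by simp⟩
  | succ m ih =>
    intro a b hab S hS
    rcases Nat.eq_zero_or_pos a with ha | ha
    · exact Or.inl ⟨∅, by simp, by simp [ha], by simp⟩
    rcases Nat.eq_zero_or_pos b with hb | hb
    · exact Or.inr ⟨∅, by simp, by simp [hb], by simp⟩
    have hpos : 0 < S.card := lt_of_lt_of_le (by positivity) hS
    obtain ⟨v, hv⟩ := Finset.card_pos.mp hpos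
    set A := S.filter (fun w => F.Adj v w) with hA
    set B := S.filter (fun w => Fᶜ.Adj v w) with hB
    have hunion : S = insert v (A ∪ B) := by
      ext w
      simp only [hA, hB, Finset.mem_insert, Finset.mem_union, Finset.mem_filter,
        SimpleGraph.compl_adj]
      constructor
      · intro hw
        by_cases hvw : w = v
        · exact Or.inl hvw
        · by_cases h : F.Adj v w
          · exact Or.inr (Or.inl ⟨hw, h⟩)
          · exact Or.inr (Or.inr ⟨hw, fun e => hvw e.symm, h⟩)
      · rintro (rfl | ⟨hw, _⟩ | ⟨hw, _⟩) <;> assumption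
    have hcard : S.card ≤ A.card + B.card + 1 := by
      calc S.card = (insert v (A ∪ B)).card := by rw [← hunion]
        _ ≤ (A ∪ B).card + 1 := Finset.card_insert_le _ _
        _ ≤ A.card + B.card + 1 := by
            have := Finset.card_union_le A B
            omega
    have h2 : 2 ^ (m + 1) = 2 ^ m + 2 ^ m := by ring
    have hm : 0 < 2 ^ m := by positivity
    have hor : 2 ^ m ≤ A.card ∨ 2 ^ m ≤ B.card := by
      by_contra hcon
      push Not at hcon
      omega
    rcases hor with h | h
    · rcases ih (a - 1) b (by omega) A h with ⟨s, hsA, hsc, hs⟩ | ⟨s, hsA, hsc, hs⟩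
      · left
        have hvs : v ∉ s := by
          intro hvs
          have := hsA hvs
          simp [hA] at this
        refine ⟨insert v s, ?_, ?_, ?_⟩
        · intro w hw
          rcases Finset.mem_insert.mp hw with rfl | hw
          · exact hv
          · exact (Finset.mem_filter.mp (hsA hw)).1
        · rw [Finset.card_insert_of_notMem hvs, hsc]; omega
        · rw [Finset.coe_insert, SimpleGraph.isClique_insert]
          exact ⟨hs, fun w hw _ => (Finset.mem_filter.mp (hsA hw)).2⟩
      · exact Or.inr ⟨s, hsA.trans (Finset.filter_subset _ _), hsc, hs⟩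
    · rcases ih a (b - 1) (by omega) B h with ⟨s, hsA, hsc, hs⟩ | ⟨s, hsA, hsc, hs⟩
      · exact Or.inl ⟨s, hsA.trans (Finset.filter_subset _ _), hsc, hs⟩
      · right
        have hvs : v ∉ s := by
          intro hvs
          have := hsA hvs
          simp [hB] at this
        refine ⟨insert v s, ?_, ?_, ?_⟩
        · intro w hw
          rcases Finset.mem_insert.mp hw with rfl | hw
          · exact hv
          · exact (Finset.mem_filter.mp (hsA hw)).1
        · rw [Finset.card_insert_of_notMem hvs, hsc]; omega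
        · rw [Finset.coe_insert, SimpleGraph.isClique_insert]
          exact ⟨hs, fun w hw _ => (Finset.mem_filter.mp (hsA hw)).2⟩

/-- In a set of at least `4 ^ k` vertices there is a monochromatic clique on `k` vertices. -/
lemma mono_clique {V : Type} [DecidableEq V] (F : SimpleGraph V) (k : ℕ) (S : Finset V)
    (hS : 4 ^ k ≤ S.card) :
    ∃ s ⊆ S, s.card = k ∧ (F.IsClique (s : Set V) ∨ Fᶜ.IsClique (s : Set V)) := by
  have h : 2 ^ (k + k) ≤ S.card := by
    have : (4 : ℕ) ^ k = 2 ^ (k + k) := by
      rw [← two_mul, pow_mul]; norm_num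
    omega
  rcases ramsey_aux F (k + k) k k rfl S h with ⟨s, h1, h2, h3⟩ | ⟨s, h1, h2, h3⟩
  · exact ⟨s, h1, h2, Or.inl h3⟩
  · exact ⟨s, h1, h2, Or.inr h3⟩

/-- Greedy extraction of `j` disjoint monochromatic cliques on `k` vertices. -/
lemma many_cliques {V : Type} [DecidableEq V] (F : SimpleGraph V) (k : ℕ) :
    ∀ (j : ℕ) (S : Finset V), j * k + 4 ^ k ≤ S.card →
      ∃ f : Fin j → Finset V, (∀ i, f i ⊆ S) ∧ (∀ i, (f i).card = k) ∧
        (∀ i, F.IsClique (f i : Set V) ∨ Fᶜ.IsClique (f i : Set V)) ∧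
        (∀ i i', i ≠ i' → Disjoint (f i) (f i')) := by
  intro j
  induction j with
  | zero =>
    intro S _
    exact ⟨fun i => i.elim0, fun i => i.elim0, fun i => i.elim0, fun i => i.elim0,
      fun i => i.elim0⟩
  | succ j ih =>
    intro S hS
    have h1 : (j + 1) * k = j * k + k := by ring
    obtain ⟨s, hsS, hsc, hs⟩ := mono_clique F k S (by omega)
    have hcard : (S \ s).card = S.card - k := by
      rw [Finset.card_sdiff_of_subset hsS, hsc]
    obtain ⟨f, hf1, hf2, hf3, hf4⟩ := ih (S \ s) (by omega)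
    refine ⟨Fin.cons s f, ?_, ?_, ?_, ?_⟩
    · intro i
      refine Fin.cases ?_ ?_ i
      · simpa using hsS
      · intro i
        simpa using (hf1 i).trans Finset.sdiff_subset
    · intro i
      refine Fin.cases ?_ ?_ i
      · simpa using hsc
      · intro i
        simpa using hf2 i
    · intro i
      refine Fin.cases ?_ ?_ i
      · simpa using hs
      · intro i
        simpa using hf3 i
    · intro i i'
      refine Fin.cases ?_ ?_ i
      · refine Fin.cases ?_ ?_ i'
        · intro h; exact absurd rfl h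
        · intro i' _
          simp only [Fin.cons_zero, Fin.cons_succ]
          exact (Finset.disjoint_of_subset_left (hf1 i') Finset.sdiff_disjoint).symm
      · intro i
        refine Fin.cases ?_ ?_ i'
        · intro _
          simp only [Fin.cons_zero, Fin.cons_succ]
          exact Finset.disjoint_of_subset_left (hf1 i) Finset.sdiff_disjoint
        · intro i' h
          simp only [Fin.cons_succ]
          exact hf4 i i' (fun e => h (by rw [e]))

/-- The disjoint union of `s` complete graphs on `k` vertices. -/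
def cliqueUnion (s k : ℕ) : SimpleGraph (Fin s × Fin k) where
  Adj x y := x.1 = y.1 ∧ x ≠ y
  symm := ⟨fun _ _ h => ⟨h.1.symm, h.2.symm⟩⟩
  loopless := ⟨fun _ h => h.2 rfl⟩

lemma cliqueUnion_contained {V : Type} [LinearOrder V] (F : SimpleGraph V) (s k : ℕ)
    (f : Fin s → Finset V) (h1 : ∀ i, (f i).card = k)
    (h2 : ∀ i, F.IsClique (f i : Set V)) (h3 : ∀ i i', i ≠ i' → Disjoint (f i) (f i')) :
    (cliqueUnion s k).IsContained F := by
  refine ⟨⟨⟨fun x => (f x.1).orderEmbOfFin (h1 x.1) x.2, ?_⟩, ?_⟩⟩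
  · rintro ⟨i, a⟩ ⟨i', b⟩ ⟨hii, hne⟩
    simp only at hii
    subst hii
    refine h2 i (Finset.orderEmbOfFin_mem _ _ _) (Finset.orderEmbOfFin_mem _ _ _) ?_
    intro hab
    apply hne
    have := ((f i).orderEmbOfFin (h1 i)).injective hab
    simp only at this
    rw [this]
  · rintro ⟨i, a⟩ ⟨i', b⟩ hab
    simp only [RelHom.coeFn_mk] at hab
    by_cases hii : i = i'
    · subst hii
      have := ((f i).orderEmbOfFin (h1 i)).injective hab
      rw [this]
    · exfalso
      have ha := Finset.orderEmbOfFin_mem (f i) (h1 i) a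
      have hb := Finset.orderEmbOfFin_mem (f i') (h1 i') b
      rw [← hab] at hb
      exact Finset.disjoint_left.mp (h3 i i' hii) ha hb

/-- Upper bound for the Ramsey number of a disjoint union of cliques. -/
lemma arrows_cliqueUnion (s k N : ℕ) (hN : 2 * s * k + 4 ^ k ≤ N) :
    Arrows N (cliqueUnion s k) := by
  classical
  intro F
  obtain ⟨f, -, hf2, hf3, hf4⟩ := many_cliques F k (2 * s) Finset.univ (by simpa using hN)
  set P : Finset (Fin (2 * s)) := Finset.univ.filter (fun i => F.IsClique (f i : Set (Fin N)))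
    with hP
  have hcardsum : P.card + Pᶜ.card = 2 * s := by
    rw [Finset.card_add_card_compl]; simp
  have hor : s ≤ P.card ∨ s ≤ Pᶜ.card := by omega
  rcases hor with h | h
  · left
    obtain ⟨Q, hQ, hQc⟩ := Finset.exists_subset_card_eq h
    let g := Q.orderEmbOfFin hQc
    refine cliqueUnion_contained F s k (fun i => f (g i)) (fun i => hf2 _) (fun i => ?_)
      (fun i i' hii => hf4 _ _ (fun e => hii (g.injective e)))
    have := hQ (Finset.orderEmbOfFin_mem Q hQc i)
    exact (Finset.mem_filter.mp this).2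
  · right
    obtain ⟨Q, hQ, hQc⟩ := Finset.exists_subset_card_eq h
    let g := Q.orderEmbOfFin hQc
    refine cliqueUnion_contained Fᶜ s k (fun i => f (g i)) (fun i => hf2 _) (fun i => ?_)
      (fun i i' hii => hf4 _ _ (fun e => hii (g.injective e)))
    have := hQ (Finset.orderEmbOfFin_mem Q hQc i)
    have hnot : ¬ F.IsClique (f (g i) : Set (Fin N)) := by
      intro hc
      exact (Finset.mem_compl.mp this) (Finset.mem_filter.mpr ⟨Finset.mem_univ _, hc⟩)
    exact (hf3 (g i)).resolve_left hnot

lemma arrows_mono {V W : Type} {G : SimpleGraph V} {G' : SimpleGraph W} {N : ℕ}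
    (h : G.IsContained G') (hA : Arrows N G') : Arrows N G := by
  intro F
  rcases hA F with h' | h'
  · exact Or.inl (h.trans h')
  · exact Or.inr (h.trans h')

lemma diagRamsey_le {V : Type} {G : SimpleGraph V} {N : ℕ} (h : Arrows N G) :
    diagRamsey G ≤ N := Nat.sInf_le h

/-- Ramsey's theorem: the Ramsey number of a finite graph is attained. -/
lemma arrows_diagRamsey {p : ℕ} (G : SimpleGraph (Fin p)) : Arrows (diagRamsey G) G := by
  have hne : {N : ℕ | Arrows N G}.Nonempty := by
    refine ⟨2 * 1 * p + 4 ^ p, ?_⟩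
    have h := arrows_cliqueUnion 1 p _ le_rfl
    refine arrows_mono ?_ h
    refine ⟨⟨⟨fun i => (0, i), ?_⟩, ?_⟩⟩
    · intro a b hab
      exact ⟨rfl, fun e => hab.ne (by simpa using e)⟩
    · intro a b hab
      exact congrArg Prod.snd hab
  exact Nat.sInf_mem hne

/-! ### The counting lower bound -/

/-- The graph of the edges of colour `true`. -/
def colourGraph {N : ℕ} (c : Sym2 (Fin N) → Bool) : SimpleGraph (Fin N) where
  Adj x y := x ≠ y ∧ c s(x, y) = true
  symm := ⟨fun x y h => ⟨h.1.symm, by rw [Sym2.eq_swap]; exact h.2⟩⟩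
  loopless := ⟨fun _ h => h.1 rfl⟩

lemma count_lower {p N : ℕ} (G : SimpleGraph (Fin p)) (h : Arrows N G) :
    2 ^ G.edgeSet.ncard ≤ 2 * N ^ N := by
  classical
  set n := G.edgeSet.ncard with hn
  have hnF : G.edgeFinset.card = n := by
    rw [hn, ← SimpleGraph.coe_edgeFinset, Set.ncard_coe_finset]
  let E := Sym2 (Fin N)
  let T : (Fin p ↪ Fin N) → Finset E := fun φ => G.edgeFinset.map φ.sym2Map
  have hT : ∀ φ, (T φ).card = n := fun φ => by simp [T, hnF]
  let B : (Fin p ↪ Fin N) × Bool → Finset (E → Bool) := fun x =>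
    Fintype.piFinset (fun e => if e ∈ T x.1 then {x.2} else Finset.univ)
  have hB : ∀ x, (B x).card = 2 ^ (Fintype.card E - n) := by
    intro x
    simp only [B, Fintype.card_piFinset]
    have : ∀ e : E, (if e ∈ T x.1 then ({x.2} : Finset Bool) else Finset.univ).card
        = if e ∈ T x.1 then 1 else 2 := by
      intro e
      split_ifs <;> simp
    simp only [this]
    rw [Finset.prod_ite]
    simp only [Finset.prod_const_one, one_mul, Finset.prod_const]
    congr 1
    have : (Finset.univ.filter (fun e => e ∉ T x.1)) = (T x.1)ᶜ := by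
      ext e; simp
    rw [this, Finset.card_compl, hT]
  have hcover : (Finset.univ : Finset (E → Bool)) ⊆
      (Finset.univ : Finset ((Fin p ↪ Fin N) × Bool)).biUnion B := by
    intro c _
    rw [Finset.mem_biUnion]
    rcases h (colourGraph c) with h' | h'
    · obtain ⟨φ⟩ := h'
      refine ⟨(φ.toEmbedding, true), Finset.mem_univ _, ?_⟩
      simp only [B, Fintype.mem_piFinset]
      intro e
      split_ifs with he
      · rw [Finset.mem_singleton]
        simp only [T, Finset.mem_map] at he
        obtain ⟨e', he', rfl⟩ := he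
        induction e' with
        | h a b =>
          rw [SimpleGraph.mem_edgeFinset, SimpleGraph.mem_edgeSet] at he'
          exact (φ.toHom.map_adj he').2
      · exact Finset.mem_univ _
    · obtain ⟨φ⟩ := h'
      refine ⟨(φ.toEmbedding, false), Finset.mem_univ _, ?_⟩
      simp only [B, Fintype.mem_piFinset]
      intro e
      split_ifs with he
      · rw [Finset.mem_singleton]
        simp only [T, Finset.mem_map] at he
        obtain ⟨e', he', rfl⟩ := he
        induction e' with
        | h a b =>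
          rw [SimpleGraph.mem_edgeFinset, SimpleGraph.mem_edgeSet] at he'
          have h1 := φ.toHom.map_adj he'
          rw [SimpleGraph.compl_adj] at h1
          have h2 : ¬ (c s(φ.toHom a, φ.toHom b) = true) := fun hc => h1.2 ⟨h1.1, hc⟩
          exact Bool.eq_false_iff.mpr h2
      · exact Finset.mem_univ _
  have hne : Nonempty (Fin p ↪ Fin N) := by
    rcases h ⊥ with h' | h'
    · obtain ⟨φ⟩ := h'
      exact ⟨φ.toEmbedding⟩
    · obtain ⟨φ⟩ := h'
      exact ⟨φ.toEmbedding⟩
  have hnE : n ≤ Fintype.card E := by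
    obtain ⟨φ⟩ := hne
    rw [← hT φ]
    exact Finset.card_le_univ _
  have hpN : p ≤ N := by
    obtain ⟨φ⟩ := hne
    simpa using Fintype.card_le_of_embedding φ
  have h1 : 2 ^ Fintype.card E ≤
      (Fintype.card (Fin p ↪ Fin N) * 2) * 2 ^ (Fintype.card E - n) := by
    calc 2 ^ Fintype.card E = (Finset.univ : Finset (E → Bool)).card := by simp
      _ ≤ ((Finset.univ : Finset ((Fin p ↪ Fin N) × Bool)).biUnion B).card :=
          Finset.card_le_card hcover
      _ ≤ ∑ x : (Fin p ↪ Fin N) × Bool, (B x).card := Finset.card_biUnion_le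
      _ = (Fintype.card (Fin p ↪ Fin N) * 2) * 2 ^ (Fintype.card E - n) := by
          simp only [hB, Finset.sum_const, Finset.card_univ, Fintype.card_prod,
            Fintype.card_bool, smul_eq_mul]
  have h2 : 2 ^ Fintype.card E = 2 ^ n * 2 ^ (Fintype.card E - n) := by
    rw [← pow_add]; congr 1; omega
  rw [h2] at h1
  have h3 : 2 ^ n ≤ Fintype.card (Fin p ↪ Fin N) * 2 :=
    Nat.le_of_mul_le_mul_right h1 (by positivity)
  have h4 : Fintype.card (Fin p ↪ Fin N) ≤ N ^ N := by
    rw [Fintype.card_embedding_eq, Fintype.card_fin, Fintype.card_fin]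
    refine (Nat.descFactorial_le_pow N p).trans ?_
    rcases Nat.eq_zero_or_pos N with rfl | hN
    · have : p = 0 := by omega
      subst this
      exact le_rfl
    · exact Nat.pow_le_pow_right hN hpN
  calc 2 ^ n ≤ Fintype.card (Fin p ↪ Fin N) * 2 := h3
    _ ≤ N ^ N * 2 := Nat.mul_le_mul_right _ h4
    _ = 2 * N ^ N := by ring

lemma lower_real {n N : ℕ} (hn : 2 ≤ n) (h : 2 ^ n ≤ 2 * N ^ N) :
    (1 / 4 : ℝ) * ((n : ℝ) / Real.log n) ≤ N := by
  by_contra hcon
  push Not at hcon
  have hn' : (2 : ℝ) ≤ n := by exact_mod_cast hn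
  have hlog2 : (0.6931471803 : ℝ) < Real.log 2 := Real.log_two_gt_d9
  have hlogn : Real.log 2 ≤ Real.log n := Real.log_le_log (by norm_num) hn'
  have hlogpos : 0 < Real.log n := by linarith
  have hN0 : 0 < N := by
    rcases Nat.eq_zero_or_pos N with rfl | hN
    · exfalso
      have : 2 ^ 2 ≤ 2 ^ n := Nat.pow_le_pow_right (by norm_num) hn
      simp at h
      omega
    · exact hN
  have hN1 : (1 : ℝ) ≤ N := by exact_mod_cast hN0
  have h1 : (N : ℝ) * Real.log n < n / 4 := by
    have := mul_lt_mul_of_pos_right hcon hlogpos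
    calc (N : ℝ) * Real.log n < 1 / 4 * ((n : ℝ) / Real.log n) * Real.log n := this
      _ = n / 4 := by field_simp
  have hNn : (N : ℝ) ≤ n := by nlinarith
  have h2 : Real.log N ≤ Real.log n := Real.log_le_log (by linarith) hNn
  have h3 : (n : ℝ) * Real.log 2 ≤ Real.log 2 + N * Real.log N := by
    have hcast : (2 : ℝ) ^ n ≤ 2 * (N : ℝ) ^ N := by exact_mod_cast h
    have := Real.log_le_log (by positivity) hcast
    rw [Real.log_pow, Real.log_mul (by norm_num) (by positivity), Real.log_pow] at this
    exact this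
  have h4 : (N : ℝ) * Real.log N ≤ N * Real.log n :=
    mul_le_mul_of_nonneg_left h2 (by linarith)
  nlinarith

lemma minRamsey_lower {n : ℕ} (hn : 2 ≤ n) :
    (1 / 4 : ℝ) * ((n : ℝ) / Real.log n) ≤ minRamsey n ∨
      ¬ {r : ℕ | ∃ (p : ℕ) (G : SimpleGraph (Fin p)), G.edgeSet.ncard = n ∧
        diagRamsey G = r}.Nonempty := by
  by_cases hne : {r : ℕ | ∃ (p : ℕ) (G : SimpleGraph (Fin p)), G.edgeSet.ncard = n ∧
        diagRamsey G = r}.Nonempty
  · left
    obtain ⟨p, G, hG, hr⟩ := Nat.sInf_mem hne
    change diagRamsey G = minRamsey n at hr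
    rw [← hr]
    refine lower_real hn ?_
    rw [← hG]
    exact count_lower G (arrows_diagRamsey G)
  · exact Or.inr hne

/-! ### The upper bound -/

lemma cliqueUnion_edges (s k : ℕ) :
    2 * (cliqueUnion s k).edgeSet.ncard = s * k * (k - 1) := by
  classical
  have h1 : (cliqueUnion s k).edgeSet.ncard = (cliqueUnion s k).edgeFinset.card := by
    rw [← SimpleGraph.coe_edgeFinset, Set.ncard_coe_finset]
  rw [h1, ← SimpleGraph.sum_degrees_eq_twice_card_edges]
  have hdeg : ∀ v : Fin s × Fin k, (cliqueUnion s k).degree v = k - 1 := by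
    intro v
    have : (cliqueUnion s k).neighborFinset v = ({v.1} : Finset (Fin s)) ×ˢ
        ((Finset.univ : Finset (Fin k)).erase v.2) := by
      ext w
      rw [SimpleGraph.mem_neighborFinset]
      simp only [Finset.mem_product,
        Finset.mem_singleton, Finset.mem_erase, Finset.mem_univ, and_true]
      constructor
      · rintro ⟨h, hne⟩
        exact ⟨h.symm, fun h2 => hne (Prod.ext h h2.symm)⟩
      · rintro ⟨h, hne⟩
        exact ⟨h.symm, fun h2 => hne (by rw [h2])⟩
    rw [← SimpleGraph.card_neighborFinset_eq_degree, this, Finset.card_product,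
      Finset.card_singleton, Finset.card_erase_of_mem (Finset.mem_univ _)]
    simp
  simp only [hdeg, Finset.sum_const, Finset.card_univ, Fintype.card_prod, Fintype.card_fin,
    smul_eq_mul]

/-- There is a graph with exactly `n` edges inside a disjoint union of cliques. -/
lemma minRamsey_le {n s k : ℕ} (h : 2 * n ≤ s * k * (k - 1)) :
    (∃ (p : ℕ) (G : SimpleGraph (Fin p)), G.edgeSet.ncard = n ∧
      Arrows (2 * s * k + 4 ^ k) G) := by
  classical
  have hE : n ≤ (cliqueUnion s k).edgeSet.ncard := by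
    have := cliqueUnion_edges s k
    omega
  obtain ⟨T, hT, hTn⟩ := Set.exists_subset_card_eq hE
  let G0 : SimpleGraph (Fin s × Fin k) := SimpleGraph.fromEdgeSet T
  have hG0 : G0 ≤ cliqueUnion s k := by
    intro a b hab
    rw [SimpleGraph.fromEdgeSet_adj] at hab
    exact hT hab.1
  have hG0e : G0.edgeSet = T := by
    rw [SimpleGraph.edgeSet_fromEdgeSet]
    ext e
    simp only [Set.mem_sdiff, and_iff_left_iff_imp]
    intro he
    exact SimpleGraph.not_isDiag_of_mem_edgeSet _ (hT he)
  let e : Fin (s * k) ≃ Fin s × Fin k := finProdFinEquiv.symm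
  let I := SimpleGraph.Iso.comap e G0
  refine ⟨s * k, G0.comap e, ?_, ?_⟩
  · rw [← hTn, ← hG0e]
    have h1 := Nat.card_congr I.mapEdgeSet
    rwa [Nat.card_coe_set_eq, Nat.card_coe_set_eq] at h1
  · refine arrows_mono ?_ (arrows_cliqueUnion s k _ le_rfl)
    exact (I.isContained).trans (SimpleGraph.IsContained.of_le hG0)

lemma upper_real {n : ℕ} (hn : 2 ≤ n) :
    ∃ s k : ℕ, 2 * n ≤ s * k * (k - 1) ∧
      ((2 * s * k + 4 ^ k : ℕ) : ℝ) ≤ 60 * ((n : ℝ) / Real.log n) := by
  set L := Nat.log 2 n with hL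
  set q := L / 4 with hq
  have hLn : 2 ^ L ≤ n := Nat.pow_log_le_self 2 (by omega)
  have hnL : n < 2 ^ (L + 1) := Nat.lt_pow_succ_log_self (by norm_num) n
  refine ⟨2 * n / ((q + 2) * (q + 1)) + 1, q + 2, ?_, ?_⟩
  · have hpos : 0 < (q + 2) * (q + 1) := by positivity
    have h1 := Nat.lt_mul_div_succ (2 * n) hpos
    have h2 : q + 2 - 1 = q + 1 := by omega
    rw [h2]
    nlinarith
  · have hn' : (2 : ℝ) ≤ n := by exact_mod_cast hn
    have hlog2 : (0.6931471803 : ℝ) < Real.log 2 := Real.log_two_gt_d9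
    have hlog2' : Real.log 2 < 0.6931471808 := Real.log_two_lt_d9
    have hlogn : Real.log 2 ≤ Real.log n := Real.log_le_log (by norm_num) hn'
    have hlogpos : 0 < Real.log n := by linarith
    set x := Real.sqrt n with hx
    have hx0 : 0 ≤ x := Real.sqrt_nonneg _
    have hxx : x * x = n := Real.mul_self_sqrt (by linarith)
    have hx1 : 1 ≤ x := by
      by_contra hcon
      push Not at hcon
      nlinarith
    -- `log n ≤ 2 x`
    have hlogx : Real.log n ≤ 2 * x := by
      have h1 : Real.log n = 2 * Real.log x := by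
        rw [← hxx, Real.log_mul (by linarith) (by linarith)]; ring
      have h2 := Real.log_le_sub_one_of_pos (show 0 < x by linarith)
      linarith
    -- `x ≤ 2 * (n / log n)`
    have hxn : x ≤ 2 * ((n : ℝ) / Real.log n) := by
      rw [← mul_div_assoc, le_div_iff₀ hlogpos]
      nlinarith
    -- the power of four
    have h4 : (4 : ℝ) ^ q ≤ x := by
      have h1 : (4 : ℕ) ^ q * 4 ^ q ≤ n := by
        calc (4 : ℕ) ^ q * 4 ^ q = 2 ^ (4 * q) := by
              rw [← mul_pow, pow_mul]; norm_num
          _ ≤ 2 ^ L := Nat.pow_le_pow_right (by norm_num) (by omega)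
          _ ≤ n := hLn
      have h2 : (4 : ℝ) ^ q * 4 ^ q ≤ n := by exact_mod_cast h1
      have h3 : 0 ≤ (4 : ℝ) ^ q := by positivity
      rw [hx]
      exact Real.le_sqrt_of_sq_le (by rw [sq]; exact h2)
    -- `L` against `log n`
    have hLlog : Real.log n ≤ (L + 1) * Real.log 2 := by
      have h1 : (n : ℝ) ≤ 2 ^ (L + 1) := by exact_mod_cast hnL.le
      have := Real.log_le_log (by linarith) h1
      rw [Real.log_pow] at this
      push_cast at this
      exact this
    have hLlog' : (L : ℝ) * Real.log 2 ≤ Real.log n := by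
      have h1 : (2 : ℝ) ^ L ≤ n := by exact_mod_cast hLn
      have := Real.log_le_log (by positivity) h1
      rwa [Real.log_pow] at this
    have hqL : (L : ℝ) + 1 ≤ 4 * (q + 1) := by
      have : L + 1 ≤ 4 * (q + 1) := by omega
      exact_mod_cast this
    have hqL' : 4 * (q : ℝ) ≤ L := by
      have : 4 * q ≤ L := by omega
      exact_mod_cast this
    have hq0 : (0 : ℝ) ≤ q := Nat.cast_nonneg _
    have hqlog : Real.log n ≤ 4 * (q + 1) := by nlinarith
    -- first term
    have hs : ((2 * n / ((q + 2) * (q + 1)) : ℕ) : ℝ) ≤ 2 * n / ((q + 2) * (q + 1)) := by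
      have := @Nat.cast_div_le ℝ _ _ _ (2 * n) ((q + 2) * (q + 1))
      push_cast at this
      exact this
    have hterm : 2 * (((2 * n / ((q + 2) * (q + 1)) : ℕ) : ℝ) + 1) * (q + 2) ≤
        16 * ((n : ℝ) / Real.log n) + 2 * (q + 2) := by
      have h1 : 2 * (((2 * n / ((q + 2) * (q + 1)) : ℕ) : ℝ) + 1) * (q + 2) ≤
          2 * (2 * n / ((q + 2) * (q + 1)) + 1) * (q + 2) := by
        have : (0 : ℝ) ≤ q + 2 := by linarith
        nlinarith
      have h2 : 2 * (2 * (n : ℝ) / ((q + 2) * (q + 1)) + 1) * (q + 2) =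
          4 * n / (q + 1) + 2 * (q + 2) := by
        field_simp
        ring
      have h3 : 4 * (n : ℝ) / (q + 1) ≤ 16 * ((n : ℝ) / Real.log n) := by
        rw [← mul_div_assoc, div_le_div_iff₀ (by linarith) hlogpos]
        nlinarith
      linarith
    have hq2 : 2 * ((q : ℝ) + 2) ≤ 6 * x := by
      have : (q : ℝ) ≤ x := by
        have h1 : 4 * (q : ℝ) * Real.log 2 ≤ 2 * x := by nlinarith
        nlinarith
      linarith
    have h4' : (4 : ℝ) ^ (q + 2) ≤ 16 * x := by
      rw [pow_add]; linarith
    push_cast at hterm ⊢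
    have hnn : 0 ≤ (n : ℝ) / Real.log n := by positivity
    have e1 : (2 * ((2 * (n : ℝ) / 1) * 0 + 1)) = 2 := by ring
    linarith [hterm, hq2, h4', hxn]

/-- **Order of growth of Harary's function.**  `R(n) = Θ(n / log n)`. -/
theorem result :
    ∃ c C : ℝ, 0 < c ∧ 0 < C ∧ ∀ n : ℕ, 2 ≤ n →
      c * ((n : ℝ) / Real.log n) ≤ (minRamsey n : ℝ) ∧
      (minRamsey n : ℝ) ≤ C * ((n : ℝ) / Real.log n) := by
  refine ⟨1 / 4, 60, by norm_num, by norm_num, fun n hn => ?_⟩
  obtain ⟨s, k, h1, h2⟩ := upper_real hn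
  obtain ⟨p, G, hG, hA⟩ := minRamsey_le h1
  have hmem : diagRamsey G ∈ {r : ℕ | ∃ (p : ℕ) (G : SimpleGraph (Fin p)),
      G.edgeSet.ncard = n ∧ diagRamsey G = r} := ⟨p, G, hG, rfl⟩
  constructor
  · exact (minRamsey_lower hn).resolve_right (fun h => h ⟨_, hmem⟩)
  · have h3 : minRamsey n ≤ 2 * s * k + 4 ^ k :=
      (Nat.sInf_le hmem).trans (diagRamsey_le hA)
    exact (by exact_mod_cast h3 : (minRamsey n : ℝ) ≤ ((2 * s * k + 4 ^ k : ℕ) : ℝ)).trans h2

end Pool.Agent.Results.MP_9bed89_co.OrderOfGrowth
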